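import Pool.Agent.Helper8.XS.Final

set_option autoImplicit false

/-!
Degree two del Pezzo surfaces over `ℚ` with a Brauer-Manin obstruction whose detection requires
exactly 3, 4, 5 and 6 elements of the Brauer group:
`w ^ 2 = d ((m^2+n^2)^2 (x^4+y^4+z^4) - 2 (m^4+n^4) (x^2y^2+y^2z^2+z^2x^2))` with
`(m,n,d) = (7,2,-311), (3,1,41*89), (2,1,43*67), (3,1,-311)`.
-/

namespace Pool.Agent.Results.MP_55a891_nt.TrueBrauerGroup

open Pool.Agent.Helper8 Pool.Agent.Helper8.XS

/-- The surface `X : w ^ 2 = d F` is a del Pezzo surface of degree two (the quartic `F = 0` is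
smooth and `d ≠ 0`) with points everywhere locally, and `s` is the least number `r ≥ 1` of
elements of the Brauer group of `X` to which no adelic point of `X` is orthogonal. -/
def Requires (m n d : ℤ) (s : ℕ) : Prop :=
  DP2.SmoothQuartic m n ∧ d ≠ 0 ∧ Nonempty (Adelic m n d) ∧
    IsLeast {r | 1 ≤ r ∧ Obstruct m n d r} s

theorem result : Requires 7 2 (-311) 3 ∧ Requires 3 1 (41 * 89) 4 ∧
    Requires 2 1 (43 * 67) 5 ∧ Requires 3 1 (-311) 6 :=
  final

end Pool.Agent.Results.MP_55a891_nt.TrueBrauerGroup
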